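import Pool.Agent.H.MP_51fc0b_lc.A

namespace Pool.Agent.Results.MP_51fc0b_lc.Hard

open Pool.Agent.Lib.CX Pool.Agent.Lib.ER Pool.Agent.H.MP_51fc0b_lc

/-- some real values of the variables give rank at most `r` -/
def MinRank (r : ℕ) (M : VM) : Prop := ∃ x : ℕ → ℝ, (M.at x).rank ≤ r

theorem result : ∀ r : ℕ, 2 ≤ r → Red ETR (MinRank r) := fun r hr =>
  etr_of_qs (red r) (pt_red r) (red_iff hr)

end Pool.Agent.Results.MP_51fc0b_lc.Hard
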